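import Mathlib
import Pool.Agent.H34.Submod

namespace Pool.Agent.Results.MP_2db6a9_co.Counter
open Pool.Agent.H34.SubmodDefs

/-- On the algebra of all subsets of some ground set there is a set function of bounded variation
that is not a difference of two bounded submodular set functions. -/
theorem result : ∃ (J : Type) (φ : Set J → ℝ), BV φ ∧
    ∀ ψ₁ ψ₂ : Set J → ℝ, Bdd ψ₁ → Submod ψ₁ → Bdd ψ₂ → Submod ψ₂ → φ ≠ ψ₁ - ψ₂ :=
  ⟨_, _, Pool.Agent.H34.Submod.main⟩

end Pool.Agent.Results.MP_2db6a9_co.Counter
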